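import Pool.Agent.QSX.StmtsG

/-!
# Squad QSX, row NVS: one step of the near vertical lemma
-/

set_option autoImplicit false

namespace Pool.Agent.QSX.H34

open Matrix Finset Pool.Agent.QSX

section lv

variable {R : Type} [CommRing R] {m : ℕ}

/-- entries only in the diagonals `l - i ≥ k` -/
def Lv (k : ℕ) (x : Matrix (Fin m) (Fin m) R) : Prop := ∀ i l : Fin m, (l : ℕ) < i + k → x i l = 0

theorem Lv.mul {a b : ℕ} {x y : Matrix (Fin m) (Fin m) R} (hx : Lv a x) (hy : Lv b y) :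
    Lv (a + b) (x * y) := by
  intro i l h
  rw [Matrix.mul_apply]
  refine Finset.sum_eq_zero fun q _ => ?_
  by_cases hq : (q : ℕ) < i + a
  · rw [hx i q hq, zero_mul]
  · rw [hy q l (by omega), mul_zero]

theorem Lv.pow {k : ℕ} {x : Matrix (Fin m) (Fin m) R} (hx : Lv k x) (j : ℕ) :
    Lv (k * j) (x ^ j) := by
  induction j with
  | zero =>
    intro i l h
    rw [pow_zero, Matrix.one_apply_ne]
    intro hij
    rw [hij, Nat.mul_zero] at h
    omega
  | succ j ih =>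
    rw [pow_succ, Nat.mul_succ]
    exact ih.mul hx

theorem Lv.su {k : ℕ} (hk : 1 ≤ k) {x : Matrix (Fin m) (Fin m) R} (hx : Lv k x) : SU x := by
  intro i j h
  refine hx i j ?_
  have : (j : ℕ) ≤ i := h
  omega

theorem lv_su {x : Matrix (Fin m) (Fin m) R} (hx : SU x) : Lv 1 x := by
  intro i j h
  exact hx i j (by rw [Fin.le_def]; omega)

variable [Algebra ℝ R]

theorem mexp_sub_one (x : Matrix (Fin m) (Fin m) R) :
    mexp x - 1 = ∑ j ∈ range m, (((j + 1).factorial : ℝ)⁻¹) • x ^ (j + 1) := by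
  rw [mexp, Finset.sum_range_succ']
  simp

theorem Lv.mexp_sub {k : ℕ} {x : Matrix (Fin m) (Fin m) R} (hx : Lv k x) :
    Lv k (mexp x - 1) := by
  intro i l h
  rw [mexp_sub_one, Matrix.sum_apply]
  refine Finset.sum_eq_zero fun j _ => ?_
  rw [Matrix.smul_apply, hx.pow (j + 1) i l ?_, smul_zero]
  have : k * 1 ≤ k * (j + 1) := Nat.mul_le_mul_left k (by omega)
  omega

theorem Lv.mexp_sub_apply {k : ℕ} (hk : 1 ≤ k) {x : Matrix (Fin m) (Fin m) R} (hx : Lv k x)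
    (i l : Fin m) (h : (l : ℕ) = i + k) : (mexp x - 1) i l = x i l := by
  rw [mexp_sub_one, Matrix.sum_apply, Finset.sum_eq_single 0]
  · simp
  · intro j _ hj
    rw [Matrix.smul_apply, hx.pow (j + 1) i l ?_, smul_zero]
    have : k * 2 ≤ k * (j + 1) := Nat.mul_le_mul_left k (by omega)
    omega
  · intro h0
    exfalso
    apply h0
    rw [Finset.mem_range]
    exact lt_of_le_of_lt (Nat.zero_le _) i.2

/-- the entries of the first diagonal add up -/
theorem ue_mul_apply {k : ℕ} (hk : 1 ≤ k) {x y z : Matrix (Fin m) (Fin m) R} (hx : Lv k x)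
    (hy : Lv k y) (hz : Lv k z) (h : ue x * ue y = ue z) (i l : Fin m) (hl : (l : ℕ) = i + k) :
    z i l = x i l + y i l := by
  have h1 : mexp x * mexp y = mexp z := by
    rw [← ue_val (hx.su hk), ← ue_val (hy.su hk), ← ue_val (hz.su hk), ← Units.val_mul, h]
  have h2 : mexp z - 1 = (mexp x - 1) * (mexp y - 1) + (mexp x - 1) + (mexp y - 1) := by
    rw [← h1]
    noncomm_ring
  rw [← hz.mexp_sub_apply hk i l hl, h2, Matrix.add_apply, Matrix.add_apply,
    hx.mexp_sub_apply hk i l hl, hy.mexp_sub_apply hk i l hl,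
    (hx.mexp_sub.mul hy.mexp_sub) i l (by omega), zero_add]

theorem uu_ue {x : Matrix (Fin m) (Fin m) R} (hx : SU x) :
    UU ((ue x : (Matrix (Fin m) (Fin m) R)ˣ) : Matrix (Fin m) (Fin m) R) := by
  rw [ue_val hx]
  exact ((lv_su hx).mexp_sub).su le_rfl

theorem ue_inv {x : Matrix (Fin m) (Fin m) R} (hx : SU x) : (ue x)⁻¹ = ue (-x) := by
  apply Units.ext
  rw [ue_inv_val hx, ue_val hx.neg]

end lv

theorem uu_mul {R : Type} [CommRing R] {m : ℕ} {g h : Matrix (Fin m) (Fin m) R} (hg : UU g)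
    (hh : UU h) : UU (g * h) := by
  have h2 : g * h - 1 = (g - 1) * (h - 1) + (g - 1) + (h - 1) := by noncomm_ring
  rw [UU, h2]
  exact ((SU.mul hg hh).add hg).add hh

theorem uu_one {R : Type} [CommRing R] {m : ℕ} : UU (1 : Matrix (Fin m) (Fin m) R) := by
  rw [UU, sub_self]
  exact SU.zero

theorem nk_lv {D : Dat} {k : ℕ} {x : Matrix (Fin D.m) (Fin D.m) ℝ} (hx : x ∈ D.nk k) : Lv k x :=
  hx.2

theorem nk_lie {D : Dat} {k : ℕ} {x y : Matrix (Fin D.m) (Fin D.m) ℝ} (hx : x ∈ D.nk k)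
    (hy : y ∈ D.nk k) : x * y - y * x ∈ D.nk k := by
  refine ⟨D.lie x hx.1 y hy.1, fun i l h => ?_⟩
  rw [Matrix.sub_apply, ((nk_lv hx).mul (nk_lv hy)) i l (by omega),
    ((nk_lv hy).mul (nk_lv hx)) i l (by omega), sub_zero]

theorem bch_n (h1 : BchStmt) {D : Dat} {x y : Matrix (Fin D.m) (Fin D.m) ℝ} (hx : x ∈ D.n)
    (hy : y ∈ D.n) : ∃ z ∈ D.n, ue x * ue y = ue z :=
  h1 ℝ D.m D.n D.su D.lie x hx y hy

theorem bch_nk (h1 : BchStmt) {D : Dat} {k : ℕ} {x y : Matrix (Fin D.m) (Fin D.m) ℝ}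
    (hx : x ∈ D.nk k) (hy : y ∈ D.nk k) : ∃ z ∈ D.nk k, ue x * ue y = ue z :=
  h1 ℝ D.m (D.nk k) (fun x hx => D.su x hx.1) (fun _ hx _ hy => nk_lie hx hy) x hx y hy

/-- the growth used twice -/
theorem growth (S : Scale) (K ε : ℝ) (hK : 0 ≤ K) (hε : 0 < ε) :
    ∀ᶠ s in (S.ω : Filter ℕ), K * (2 * S.R s + 1) ≤ Real.exp (S.R s * ε) := by
  filter_upwards [S.ev_R 1, S.ev_R (6 * K / ε ^ 2)] with s h1 h2
  have h3 : 6 * K ≤ S.R s * ε ^ 2 := by
    rwa [div_le_iff₀ (by positivity)] at h2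
  have h4 := Real.quadratic_le_exp_of_nonneg (x := S.R s * ε) (by positivity)
  have h5 : 0 ≤ S.R s * ε := by positivity
  have h6 : K * (2 * S.R s + 1) ≤ 3 * K * S.R s := by nlinarith
  have h7 : 3 * K * S.R s ≤ (S.R s * ε) ^ 2 / 2 := by nlinarith
  linarith

theorem ue_apply {m : ℕ} {k : ℕ} (hk : 1 ≤ k) {x : Matrix (Fin m) (Fin m) ℝ} (hx : Lv k x)
    (i l : Fin m) (h : (l : ℕ) = i + k) :
    ((ue x : (Matrix (Fin m) (Fin m) ℝ)ˣ) : Matrix (Fin m) (Fin m) ℝ) i l = x i l := by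
  rw [ue_val (hx.su hk), ← hx.mexp_sub_apply hk i l h, Matrix.sub_apply, Matrix.one_apply_ne,
    sub_zero]
  intro hil
  rw [hil] at h
  omega

section main

variable {D : Dat} {S : Scale} {V : Type} [NormedAddCommGroup V] [NormedSpace ℝ V]
  [FiniteDimensional ℝ V] {P : V →ₗ[ℝ] (Fin D.m → ℝ)}

/-- change of the base point -/
theorem shift (S : Scale) (P : V →ₗ[ℝ] (Fin D.m → ℝ)) (ε : ℝ) (hε : 0 < ε) :
    ∀ᶠ s in (S.ω : Filter ℕ), ∀ a a' : V, S.R s * ‖a - a'‖ ≤ 1 → ∀ i l : Fin D.m,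
      S.R s * (P a' i - P a' l + ε / 2) ≤ S.R s * (P a i - P a l + ε) := by
  set C : ℝ := ‖LinearMap.toContinuousLinearMap P‖ with hC
  have hP : ∀ (v : V) (i : Fin D.m), |P v i| ≤ C * ‖v‖ := by
    intro v i
    have h1 : ‖P v i‖ ≤ ‖P v‖ := norm_le_pi_norm (P v) i
    have h2 : ‖LinearMap.toContinuousLinearMap P v‖ ≤ C * ‖v‖ :=
      (LinearMap.toContinuousLinearMap P).le_opNorm v
    exact h1.trans h2
  have hC0 : 0 ≤ C := norm_nonneg _
  filter_upwards [S.ev_R 0, S.ev_R (4 * C / ε)] with s h0 h1 a a' haa i l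
  have h2 : 4 * C ≤ S.R s * ε := by rwa [div_le_iff₀ hε] at h1
  have h3 : P a' i - P a i = -P (a - a') i := by
    rw [map_sub, Pi.sub_apply]; ring
  have h4 : P a' l - P a l = -P (a - a') l := by
    rw [map_sub, Pi.sub_apply]; ring
  have h5 := hP (a - a') i
  have h6 := hP (a - a') l
  rw [abs_le] at h5 h6
  have h7 : S.R s * (C * ‖a - a'‖) ≤ C := by
    calc S.R s * (C * ‖a - a'‖) = C * (S.R s * ‖a - a'‖) := by ring
      _ ≤ C * 1 := mul_le_mul_of_nonneg_left haa hC0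
      _ = C := mul_one C
  have h8 : (P a' i - P a' l + ε / 2) - (P a i - P a l + ε) ≤ 2 * (C * ‖a - a'‖) - ε / 2 := by
    linarith
  have h9 := mul_le_mul_of_nonneg_left h8 h0
  nlinarith

theorem diff_bound (hB : BchStmt) (hC : ClgStmt)
    (φ : ℕ → V → (Matrix (Fin D.m) (Fin D.m) ℝ)ˣ) (hφn : ∀ s a, ∃ y ∈ D.n, φ s a = ue y)
    (hφ : ∀ ε > (0 : ℝ), ∀ᶠ s in (S.ω : Filter ℕ), ∀ a a', ‖a‖ ≤ 1 → ‖a'‖ ≤ 1 →
      S.R s * ‖a - a'‖ ≤ 1 → ∀ i l, i < l →
      |(((φ s a)⁻¹ * φ s a' : (Matrix (Fin D.m) (Fin D.m) ℝ)ˣ) : Matrix _ _ ℝ) i l| ≤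
        Real.exp (S.R s * (P a i - P a l + ε)))
    (k : ℕ) (hk : 1 ≤ k) (ψ : ℕ → (Matrix (Fin D.m) (Fin D.m) ℝ)ˣ)
    (g : ℕ → V → (Matrix (Fin D.m) (Fin D.m) ℝ)ˣ) (y : ℕ → V → Matrix (Fin D.m) (Fin D.m) ℝ)
    (hgn : ∀ s a, ∃ y ∈ D.n, g s a = ue y) (hy : ∀ s a, y s a ∈ D.nk k)
    (he : ∀ s a, (φ s a)⁻¹ * ψ s = g s a * ue (y s a))
    (hg : S.Cls P {a | ‖a‖ ≤ 1} (fun s a => (g s a : Matrix (Fin D.m) (Fin D.m) ℝ))) :
    ∀ ε > (0 : ℝ), ∀ᶠ s in (S.ω : Filter ℕ), ∀ a a', ‖a‖ ≤ 1 → ‖a'‖ ≤ 1 →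
      S.R s * ‖a - a'‖ ≤ 1 → ∀ i l : Fin D.m, (l : ℕ) = i + k →
      |y s a i l - y s a' i l| ≤ Real.exp (S.R s * (P a i - P a l + ε)) := by
  classical
  have uue : ∀ u : (Matrix (Fin D.m) (Fin D.m) ℝ)ˣ, (∃ y ∈ D.n, u = ue y) →
      UU (u : Matrix (Fin D.m) (Fin D.m) ℝ) := by
    rintro u ⟨z, hz, rfl⟩
    exact uu_ue (D.su z hz)
  have uinv : ∀ u : (Matrix (Fin D.m) (Fin D.m) ℝ)ˣ, (∃ y ∈ D.n, u = ue y) →
      ∃ y ∈ D.n, u⁻¹ = ue y := by
    rintro u ⟨z, hz, rfl⟩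
    exact ⟨-z, D.n.neg_mem hz, ue_inv (D.su z hz)⟩
  let c : ℕ → V × V → Prop := fun s q => ‖q.1‖ ≤ 1 ∧ ‖q.2‖ ≤ 1 ∧ S.R s * ‖q.1 - q.2‖ ≤ 1
  let h1 : ℕ → V × V → (Matrix (Fin D.m) (Fin D.m) ℝ)ˣ := fun s q =>
    if c s q then (g s q.1)⁻¹ else 1
  let h2 : ℕ → V × V → (Matrix (Fin D.m) (Fin D.m) ℝ)ˣ := fun s q =>
    if c s q then (φ s q.1)⁻¹ * φ s q.2 else 1
  let h3 : ℕ → V × V → (Matrix (Fin D.m) (Fin D.m) ℝ)ˣ := fun s q =>
    if c s q then g s q.2 else 1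
  let Q : V × V → Fin D.m → ℝ := fun q => P q.1
  have u1 : ∀ s q, UU (h1 s q : Matrix (Fin D.m) (Fin D.m) ℝ) := by
    intro s q
    by_cases h : c s q
    · simp only [h1, if_pos h]
      exact uue _ (uinv _ (hgn s q.1))
    · simp only [h1, if_neg h, Units.val_one]
      exact uu_one
  have u2 : ∀ s q, UU (h2 s q : Matrix (Fin D.m) (Fin D.m) ℝ) := by
    intro s q
    by_cases h : c s q
    · simp only [h2, if_pos h]
      rw [Units.val_mul]
      exact uu_mul (uue _ (uinv _ (hφn s q.1))) (uue _ (hφn s q.2))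
    · simp only [h2, if_neg h, Units.val_one]
      exact uu_one
  have u3 : ∀ s q, UU (h3 s q : Matrix (Fin D.m) (Fin D.m) ℝ) := by
    intro s q
    by_cases h : c s q
    · simp only [h3, if_pos h]
      exact uue _ (hgn s q.2)
    · simp only [h3, if_neg h, Units.val_one]
      exact uu_one
  have triv : ∀ (i l : Fin D.m) (r : ℝ), i < l →
      |((1 : (Matrix (Fin D.m) (Fin D.m) ℝ)ˣ) : Matrix (Fin D.m) (Fin D.m) ℝ) i l| ≤
        Real.exp r := by
    intro i l r hil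
    rw [Units.val_one, Matrix.one_apply_ne hil.ne, abs_zero]
    exact (Real.exp_pos _).le
  have gi := (hC S V D.m P {a | ‖a‖ ≤ 1} g g (fun s a => uue _ (hgn s a))
    (fun s a => uue _ (hgn s a)) hg hg).2
  have c1 : S.Cls Q Set.univ (fun s q => (h1 s q : Matrix (Fin D.m) (Fin D.m) ℝ)) := by
    intro ε hε
    filter_upwards [gi ε hε] with s hs q _ i l hil
    by_cases h : c s q
    · simp only [h1, if_pos h]
      exact hs q.1 h.1 i l hil
    · simp only [h1, if_neg h]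
      exact triv i l _ hil
  have c2 : S.Cls Q Set.univ (fun s q => (h2 s q : Matrix (Fin D.m) (Fin D.m) ℝ)) := by
    intro ε hε
    filter_upwards [hφ ε hε] with s hs q _ i l hil
    by_cases h : c s q
    · simp only [h2, if_pos h]
      exact hs q.1 q.2 h.1 h.2.1 h.2.2 i l hil
    · simp only [h2, if_neg h]
      exact triv i l _ hil
  have c3 : S.Cls Q Set.univ (fun s q => (h3 s q : Matrix (Fin D.m) (Fin D.m) ℝ)) := by
    intro ε hε
    filter_upwards [hg (ε / 2) (by positivity), shift S P ε hε] with s hs hsh q _ i l hil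
    by_cases h : c s q
    · simp only [h3, if_pos h]
      exact (hs q.2 h.2.1 i l hil).trans (Real.exp_le_exp.2 (hsh q.1 q.2 h.2.2 i l))
    · simp only [h3, if_neg h]
      exact triv i l _ hil
  have c12 := (hC S (V × V) D.m Q Set.univ h1 h2 u1 u2 c1 c2).1
  have c123 := (hC S (V × V) D.m Q Set.univ (fun s q => h1 s q * h2 s q) h3
    (fun s q => by rw [Units.val_mul]; exact uu_mul (u1 s q) (u2 s q)) u3 c12 c3).1
  intro ε hε
  filter_upwards [c123 ε hε] with s hs a a' ha ha' haa i l hl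
  have hcq : c s (a, a') := ⟨ha, ha', haa⟩
  have hil : i < l := by rw [Fin.lt_def]; omega
  have h4 := hs (a, a') (Set.mem_univ _) i l hil
  simp only [h1, h2, h3, if_pos hcq] at h4
  obtain ⟨z, hz, hze⟩ := bch_nk hB (hy s a) ((D.nk k).neg_mem (hy s a'))
  have e1 : ∀ a, ue (y s a) = (g s a)⁻¹ * ((φ s a)⁻¹ * ψ s) := by
    intro a
    rw [he, inv_mul_cancel_left]
  have e2 : (g s a)⁻¹ * ((φ s a)⁻¹ * φ s a') * g s a' = ue z := by
    rw [← hze, ← ue_inv ((nk_lv (hy s a')).su hk), e1 a, e1 a']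
    group
  rw [e2, ue_apply hk (nk_lv hz) i l hl,
    ue_mul_apply hk (nk_lv (hy s a)) (nk_lv ((D.nk k).neg_mem (hy s a'))) (nk_lv hz) hze i l hl,
    Matrix.neg_apply, ← sub_eq_add_neg] at h4
  exact h4

/-- the weight `P_i - P_l` -/
noncomputable def wt (P : V →ₗ[ℝ] (Fin D.m → ℝ)) (i l : Fin D.m) : V →ₗ[ℝ] ℝ :=
  (LinearMap.proj i).comp P - (LinearMap.proj l).comp P

theorem wt_apply (i l : Fin D.m) (a : V) : wt P i l a = P a i - P a l := rfl

end main

theorem nvs (hB : BchStmt) (_hL : LgmStmt) (hC : ClgStmt) (hE : CleStmt) (hT : PthStmt)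
    (hR : PrtStmt) (hS : SecStmt) : NvsStmt := by
  classical
  intro D S V _ _ _ P hP hR1 φ hφn hφ k hk ψ g ζ hψ hgn hζ he hg
  choose y hyk hye using hζ
  have he' : ∀ s a, (φ s a)⁻¹ * ψ s = g s a * ue (y s a) := fun s a => by rw [he, hye]
  have hd := diff_bound hB hC φ hφn hφ k hk ψ g y hgn hyk he' hg
  choose a₀ ha₀ hpth using fun p : V →ₗ[ℝ] ℝ => hT V p
  let W : Finset (V →ₗ[ℝ] ℝ) := Finset.univ.image fun q : Fin D.m × Fin D.m => wt P q.1 q.2
  let η : ℕ → Matrix (Fin D.m) (Fin D.m) ℝ := fun s => -∑ ρ ∈ W, part P ρ (y s (a₀ ρ))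
  have hη : ∀ s, η s ∈ D.nk k := fun s =>
    (D.nk k).neg_mem ((D.nk k).sum_mem fun ρ _ => hR D V P hP ρ k _ (hyk s (a₀ ρ)))
  have hηa : ∀ s i l, η s i l = -y s (a₀ (wt P i l)) i l := by
    intro s i l
    simp only [η]
    rw [Matrix.neg_apply, Matrix.sum_apply, Finset.sum_eq_single (wt P i l)]
    · unfold part
      rw [if_pos (show ∀ a, P a i - P a l = wt P i l a from fun a => rfl)]
    · intro ρ _ hρ
      unfold part
      rw [if_neg]
      intro h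
      exact hρ (LinearMap.ext fun a => (h a).symm)
    · intro h
      exact absurd (Finset.mem_image.2 ⟨(i, l), Finset.mem_univ _, rfl⟩) h
  choose z hzk hze using fun s a => bch_nk hB (hyk s a) (hη s)
  obtain ⟨K, hK0, hK⟩ := hS D V P hP k
  choose w hwk hwe hwb using fun s a => hK (z s a) (hzk s a)
  choose z' hz'k hz'e using fun s a => bch_nk hB ((D.nk k).neg_mem (hwk s a)) (hzk s a)
  have hza : ∀ s a (i l : Fin D.m), (l : ℕ) = i + k →
      z s a i l = y s a i l - y s (a₀ (wt P i l)) i l := by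
    intro s a i l hl
    rw [ue_mul_apply hk (nk_lv (hyk s a)) (nk_lv (hη s)) (nk_lv (hzk s a)) (hze s a) i l hl, hηa,
      sub_eq_add_neg]
  refine ⟨fun s => ψ s * ue (η s), fun s a => g s a * ue (w s a), fun s a => ue (z' s a),
    ?_, ?_, ?_, ?_, ?_⟩
  · intro s
    obtain ⟨u, hu, hue⟩ := hψ s
    change ∃ y ∈ D.n, ψ s * ue (η s) = ue y
    rw [hue]
    exact bch_n hB hu (hη s).1
  · intro s a
    obtain ⟨u, hu, hue⟩ := hgn s a
    change ∃ y ∈ D.n, g s a * ue (w s a) = ue y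
    rw [hue]
    exact bch_n hB hu (hwk s a).1
  · intro s a
    refine ⟨z' s a, ⟨(hz'k s a).1, fun i l h => ?_⟩, rfl⟩
    rcases Nat.lt_or_ge (l : ℕ) (i + k) with h1 | h1
    · exact (hz'k s a).2 i l h1
    · have h2 : (l : ℕ) = i + k := by omega
      rw [ue_mul_apply hk (nk_lv ((D.nk k).neg_mem (hwk s a))) (nk_lv (hzk s a))
        (nk_lv (hz'k s a)) (hz'e s a) i l h2, Matrix.neg_apply, hwe s a i l h2, neg_add_cancel]
  · intro s a
    change (φ s a)⁻¹ * (ψ s * ue (η s)) = g s a * ue (w s a) * ue (z' s a)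
    rw [← mul_assoc, he', ← hz'e s a, ← ue_inv ((nk_lv (hwk s a)).su hk), ← hze s a, ← mul_assoc,
      mul_assoc (g s a) (ue (w s a)), mul_inv_cancel, mul_one, mul_assoc]
  · have hw : S.Cls P {a | ‖a‖ ≤ 1} w := by
      intro ε hε
      filter_upwards [hd (ε / 2) (by positivity), growth S K (ε / 2) hK0.le (by positivity)]
        with s hs hgr a ha i l hil
      have hRs := hR1 s
      have hb := hwb s a i l hil
        ((2 * S.R s + 1) * Real.exp (S.R s * (P a i - P a l + ε / 2))) (by positivity) (by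
          intro i' l' hl' hw'
          rw [hza s a i' l' hl']
          have h := hpth (wt P i' l') (S.R s) (ε / 2) (fun a => y s a i' l') hRs
            (fun a a' ha ha' haa => hs a a' ha ha' haa i' l' hl') a ha
          rw [wt_apply, hw' a] at h
          exact h)
      refine hb.trans ?_
      rw [← mul_assoc]
      refine (mul_le_mul_of_nonneg_right hgr (Real.exp_pos _).le).trans ?_
      rw [← Real.exp_add]
      refine Real.exp_le_exp.2 (le_of_eq ?_)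
      ring
    have hw2 := hE S V D.m P {a | ‖a‖ ≤ 1} w (fun s a => D.su _ (hwk s a).1) hw
    have hw3 : S.Cls P {a | ‖a‖ ≤ 1}
        (fun s a => ((ue (w s a) : (Matrix (Fin D.m) (Fin D.m) ℝ)ˣ) :
          Matrix (Fin D.m) (Fin D.m) ℝ)) := by
      have e : (fun s a => ((ue (w s a) : (Matrix (Fin D.m) (Fin D.m) ℝ)ˣ) :
          Matrix (Fin D.m) (Fin D.m) ℝ)) = fun s a => mexp (w s a) := by
        funext s a
        exact ue_val (D.su _ (hwk s a).1)
      rw [e]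
      exact hw2
    refine (hC S V D.m P {a | ‖a‖ ≤ 1} g (fun s a => ue (w s a)) ?_ ?_ hg hw3).1
    · intro s a
      obtain ⟨u, hu, hue⟩ := hgn s a
      rw [hue]
      exact uu_ue (D.su u hu)
    · intro s a
      exact uu_ue (D.su _ (hwk s a).1)

end Pool.Agent.QSX.H34
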